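import Pool.Agent.LeoK.StrStmts

/-! Squad leok, module APX: a number field is dense in its completions at 3. -/

set_option autoImplicit false

open NumberField Module

namespace Pool.Agent.LeoK.H71

open Pool.Agent.Leo3 Pool.Agent.LeoK

theorem padic_mem (K : Subfield Om) (a : ℚ_[3]) :
    algebraMap ℚ_[3] Om a ∈ K.topologicalClosure := by
  have hc : Continuous (algebraMap ℚ_[3] Om) := by
    refine (AddMonoidHomClass.isometry_of_norm (algebraMap ℚ_[3] Om) fun x => ?_).continuous
    exact PadicAlgCl.norm_extends 3 x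
  have h1 : a ∈ closure (Set.range ((↑) : ℚ → ℚ_[3])) := by
    rw [Metric.mem_closure_range_iff]
    intro ε hε
    obtain ⟨r, hr⟩ := Padic.rat_dense 3 a hε
    exact ⟨r, by rw [dist_eq_norm]; exact hr⟩
  have h2 := map_mem_closure (t := (K : Set Om)) hc h1 (by
    rintro _ ⟨r, rfl⟩
    rw [map_ratCast]
    exact SubfieldClass.ratCast_mem K r)
  exact h2

theorem mem_closure_of_adjoin {k : Type} [Field k] (φ : k →+* Om) (t : Om)
    (ht : t ∈ IntermediateField.adjoin ℚ_[3] (Set.range φ)) :
    t ∈ (φ.fieldRange).topologicalClosure := by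
  induction ht using IntermediateField.adjoin_induction with
  | mem y hy =>
    apply (φ.fieldRange).le_topologicalClosure
    exact hy
  | algebraMap q => exact padic_mem _ q
  | add y z _ _ h1 h2 => exact add_mem h1 h2
  | inv y _ h1 => exact inv_mem h1
  | mul y z _ _ h1 h2 => exact mul_mem h1 h2

theorem apx : ApxStmt := by
  intro k _ _ φ t ht n
  have hgal : IsGalois ℚ_[3] Om := inferInstance
  have h1 : t ∈ IntermediateField.adjoin ℚ_[3] (Set.range φ) := by
    rw [← InfiniteGalois.fixedField_fixingSubgroup (IntermediateField.adjoin ℚ_[3] (Set.range φ))]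
    rw [IntermediateField.mem_fixedField_iff]
    intro ρ hρ
    apply ht
    intro x
    rw [IntermediateField.mem_fixingSubgroup_iff] at hρ
    exact hρ _ (IntermediateField.subset_adjoin _ _ ⟨x, rfl⟩)
  have h2 := mem_closure_of_adjoin φ t h1
  have h3 : t ∈ closure (Set.range φ) := h2
  rw [Metric.mem_closure_range_iff] at h3
  obtain ⟨x, hx⟩ := h3 ((3 : ℝ)⁻¹ ^ n) (by positivity)
  refine ⟨x, ?_⟩
  rw [← dist_eq_norm, dist_comm]
  exact hx.le

end Pool.Agent.LeoK.H71
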